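import Mathlib

/-!
# Waring rank after adjoining a new variable

For every `n ≥ 3` there are a cubic form `f` and a quadratic form `g` in `n` variables such that
the Waring rank of `f + u g` (`u` a new variable) is smaller than `3` plus the minimum of the Waring
ranks of the forms `f + v g`, `v` a linear form in the `n` variables.  In fact `f + u g` is a sum of
`n + 2` cubes, and no `f + v g` is a sum of fewer than `n` cubes.
-/

set_option autoImplicit false

namespace Pool.Agent.Results.MP_1e0c69_ag.NewVariableFails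

open MvPolynomial

/-- `F` is a sum of `w` `d`-th powers of linear forms. -/
def IsPowerSum {σ : Type} (d w : ℕ) (F : MvPolynomial σ ℂ) : Prop :=
  ∃ l : Fin w → MvPolynomial σ ℂ, (∀ i, (l i).IsHomogeneous 1) ∧ F = ∑ i, l i ^ d

/-- The Waring rank of the form `F` of degree `d`: the least `w` such that `F` is a sum of `w`
`d`-th powers of linear forms (in the variables of the polynomial ring of `F`). -/
noncomputable def waringRank {σ : Type} (d : ℕ) (F : MvPolynomial σ ℂ) : ℕ∞ :=
  ⨅ w ∈ {w : ℕ | IsPowerSum d w F}, (w : ℕ∞)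

/-- The form `f + u g` in the variables `x_1, …, x_n, u`: the variable `x_i` is `X (some i)`
and the new variable `u` is `X none`. -/
noncomputable def adjoin {n : ℕ} (f g : MvPolynomial (Fin n) ℂ) : MvPolynomial (Option (Fin n)) ℂ :=
  rename some f + X none * rename some g

/-! ### Sums of powers -/

theorem IsPowerSum.add {σ : Type} {d a b : ℕ} {F G : MvPolynomial σ ℂ} (hF : IsPowerSum d a F)
    (hG : IsPowerSum d b G) : IsPowerSum d (a + b) (F + G) := by
  obtain ⟨l, hl, rfl⟩ := hF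
  obtain ⟨m, hm, rfl⟩ := hG
  refine ⟨Fin.append l m, ?_, ?_⟩
  · intro i
    refine Fin.addCases (fun i => ?_) (fun i => ?_) i
    · rw [Fin.append_left]; exact hl i
    · rw [Fin.append_right]; exact hm i
  · rw [Fin.sum_univ_add]
    simp [Fin.append_left, Fin.append_right]

theorem isPowerSum_zero {σ : Type} (d : ℕ) : IsPowerSum d 0 (0 : MvPolynomial σ ℂ) :=
  ⟨Fin.elim0, fun i => i.elim0, by simp⟩

theorem isPowerSum_C_mul {σ : Type} (c : ℂ) (l : MvPolynomial σ ℂ) (hl : l.IsHomogeneous 1) :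
    IsPowerSum 3 1 (C c * l ^ 3) := by
  obtain ⟨z, hz⟩ := IsAlgClosed.exists_pow_nat_eq c (n := 3) (by norm_num)
  refine ⟨fun _ => C z * l, fun _ => ?_, ?_⟩
  · simpa using (isHomogeneous_C σ z).mul hl
  · simp [mul_pow, ← hz]

theorem isPowerSum_finset {σ ι : Type} [DecidableEq ι] (s : Finset ι) (l : ι → MvPolynomial σ ℂ)
    (hl : ∀ i ∈ s, (l i).IsHomogeneous 1) : IsPowerSum 3 s.card (∑ i ∈ s, l i ^ 3) := by
  induction s using Finset.induction_on with
  | empty => simpa using isPowerSum_zero 3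
  | insert a s ha ih =>
    rw [Finset.sum_insert ha, Finset.card_insert_of_notMem ha, add_comm s.card 1]
    refine IsPowerSum.add ?_ (ih fun i hi => hl i (Finset.mem_insert_of_mem hi))
    have := isPowerSum_C_mul 1 (l a) (hl a (Finset.mem_insert_self a s))
    simpa using this

/-- Linear forms are evaluated linearly. -/
theorem eval_linear {σ : Type} (l : MvPolynomial σ ℂ) (hl : l.IsHomogeneous 1) (x y : σ → ℂ)
    (t : ℂ) : eval (x + t • y) l = eval x l + t * eval y l := by
  have h : l ∈ homogeneousSubmodule σ ℂ 1 := hl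
  rw [homogeneousSubmodule_one_eq_span_X] at h
  induction h using Submodule.span_induction with
  | mem p hp =>
    obtain ⟨i, rfl⟩ := hp
    simp
  | zero => simp
  | add p q hp hq h1 h2 =>
    simp only [map_add]
    rw [h1 (by rw [← mem_homogeneousSubmodule, homogeneousSubmodule_one_eq_span_X]; exact hp),
      h2 (by rw [← mem_homogeneousSubmodule, homogeneousSubmodule_one_eq_span_X]; exact hq)]
    ring
  | smul a p hp h1 =>
    simp only [smul_eval]
    rw [h1 (by rw [← mem_homogeneousSubmodule, homogeneousSubmodule_one_eq_span_X]; exact hp)]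
    ring

/-- The linear functional defined by a linear form. -/
noncomputable def toLin {σ : Type} (l : MvPolynomial σ ℂ) (hl : l.IsHomogeneous 1) :
    (σ → ℂ) →ₗ[ℂ] ℂ where
  toFun y := eval y l
  map_add' x y := by
    have := eval_linear l hl x y 1
    simpa using this
  map_smul' t y := by
    have h0 := eval_linear l hl 0 0 1
    have := eval_linear l hl 0 y t
    simp only [zero_add, smul_zero, add_zero, one_mul] at h0 this
    have h1 : eval (0 : σ → ℂ) l = 0 := by linear_combination -h0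
    rw [this, h1]
    simp

/-- A form in `n` variables which is a sum of fewer than `n` cubes is invariant under a nonzero
translation. -/
theorem exists_invariant {n w : ℕ} (hw : w < n) (F : MvPolynomial (Fin n) ℂ)
    (hF : IsPowerSum 3 w F) :
    ∃ y : Fin n → ℂ, y ≠ 0 ∧ ∀ (x : Fin n → ℂ) (t : ℂ), eval (x + t • y) F = eval x F := by
  obtain ⟨l, hl, rfl⟩ := hF
  let L : (Fin n → ℂ) →ₗ[ℂ] (Fin w → ℂ) := LinearMap.pi fun i => toLin (l i) (hl i)
  have hk : LinearMap.ker L ≠ ⊥ := by
    apply LinearMap.ker_ne_bot_of_finrank_lt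
    simpa using hw
  obtain ⟨y, hy, hy0⟩ := Submodule.exists_mem_ne_zero_of_ne_bot hk
  refine ⟨y, hy0, fun x t => ?_⟩
  rw [map_sum, map_sum]
  refine Finset.sum_congr rfl fun i _ => ?_
  have h1 : eval y (l i) = 0 := by
    have := congrFun (LinearMap.mem_ker.1 hy) i
    simpa [L, toLin] using this
  rw [map_pow, map_pow, eval_linear (l i) (hl i) x y t, h1]
  simp

/-! ### The forms -/

/-- `x₀³ + 2 x₁³ + 3 x₂³ - (x₀ + 2 x₁ + 3 x₂)³ + ∑_{j ≥ 3} x_j³` -/
noncomputable def cubic (k : ℕ) : MvPolynomial (Fin (k + 3)) ℂ :=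
  X 0 ^ 3 + C 2 * X 1 ^ 3 + C 3 * X 2 ^ 3 + C (-1) * (X 0 + C 2 * X 1 + C 3 * X 2) ^ 3 +
    ∑ j : Fin k, X j.succ.succ.succ ^ 3

/-- `3 (x₀² + 2 x₁² + 3 x₂² - (x₀ + 2 x₁ + 3 x₂)²)` -/
noncomputable def quadric (k : ℕ) : MvPolynomial (Fin (k + 3)) ℂ :=
  C 3 * (X 0 ^ 2 + C 2 * X 1 ^ 2 + C 3 * X 2 ^ 2 + C (-1) * (X 0 + C 2 * X 1 + C 3 * X 2) ^ 2)

theorem hom_lin {σ : Type} (i j k : σ) :
    (X i + C 2 * X j + C 3 * X k : MvPolynomial σ ℂ).IsHomogeneous 1 := by
  refine ((isHomogeneous_X _ _).add ?_).add ?_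
  · simpa using (isHomogeneous_C σ (2 : ℂ)).mul (isHomogeneous_X ℂ j)
  · simpa using (isHomogeneous_C σ (3 : ℂ)).mul (isHomogeneous_X ℂ k)

theorem hom_C_mul {σ : Type} {m : ℕ} (c : ℂ) (p : MvPolynomial σ ℂ) (hp : p.IsHomogeneous m) :
    (C c * p).IsHomogeneous m := by
  simpa using (isHomogeneous_C σ c).mul hp

theorem hom_pow {σ : Type} (m : ℕ) (p : MvPolynomial σ ℂ) (hp : p.IsHomogeneous 1) :
    (p ^ m).IsHomogeneous m := by
  simpa using hp.pow m

theorem cubic_hom (k : ℕ) : (cubic k).IsHomogeneous 3 := by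
  refine ((((hom_pow 3 _ (isHomogeneous_X _ _)).add (hom_C_mul _ _ (hom_pow 3 _
    (isHomogeneous_X _ _)))).add (hom_C_mul _ _ (hom_pow 3 _ (isHomogeneous_X _ _)))).add
    (hom_C_mul _ _ (hom_pow 3 _ (hom_lin _ _ _)))).add ?_
  exact IsHomogeneous.sum _ _ _ fun j _ => hom_pow 3 _ (isHomogeneous_X _ _)

theorem quadric_hom (k : ℕ) : (quadric k).IsHomogeneous 2 := by
  refine hom_C_mul _ _ ((((hom_pow 2 _ (isHomogeneous_X _ _)).add (hom_C_mul _ _ (hom_pow 2 _
    (isHomogeneous_X _ _)))).add (hom_C_mul _ _ (hom_pow 2 _ (isHomogeneous_X _ _)))).add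
    (hom_C_mul _ _ (hom_pow 2 _ (hom_lin _ _ _))))

/-- the values of `cubic` -/
theorem eval_cubic (k : ℕ) (x : Fin (k + 3) → ℂ) : eval x (cubic k) =
    x 0 ^ 3 + 2 * x 1 ^ 3 + 3 * x 2 ^ 3 - (x 0 + 2 * x 1 + 3 * x 2) ^ 3 +
      ∑ j : Fin k, x j.succ.succ.succ ^ 3 := by
  simp only [cubic, map_add, map_mul, map_pow, map_sum, eval_X, eval_C]
  ring

/-- the values of `quadric` -/
theorem eval_quadric (k : ℕ) (x : Fin (k + 3) → ℂ) : eval x (quadric k) =
    3 * (x 0 ^ 2 + 2 * x 1 ^ 2 + 3 * x 2 ^ 2 - (x 0 + 2 * x 1 + 3 * x 2) ^ 2) := by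
  simp only [quadric, map_add, map_mul, map_pow, eval_X, eval_C]
  ring

theorem cubic_ne_zero (k : ℕ) : cubic k ≠ 0 := by
  intro h
  have h1 := eval_cubic k (fun i => if i = 1 then 1 else 0)
  rw [h, map_zero] at h1
  have h2 : ∀ j : Fin k, (j.succ.succ.succ : Fin (k + 3)) ≠ 1 := by
    intro j hj
    have := congrArg Fin.val hj
    simp at this
  have h3 : (0 : Fin (k + 3)) ≠ 1 := by
    intro hj
    have := congrArg Fin.val hj
    simp at this
  have h4 : (2 : Fin (k + 3)) ≠ 1 := by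
    intro hj
    have := congrArg Fin.val hj
    simp at this
    rw [Nat.mod_eq_of_lt (by omega)] at this
    omega
  simp [h2, h3, h4] at h1
  norm_num at h1

theorem quadric_ne_zero (k : ℕ) : quadric k ≠ 0 := by
  intro h
  have h1 := eval_quadric k (fun i => if i = 1 then 1 else 0)
  rw [h, map_zero] at h1
  have h3 : (0 : Fin (k + 3)) ≠ 1 := by
    intro hj
    have := congrArg Fin.val hj
    simp at this
  have h4 : (2 : Fin (k + 3)) ≠ 1 := by
    intro hj
    have := congrArg Fin.val hj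
    simp at this
    rw [Nat.mod_eq_of_lt (by omega)] at this
    omega
  simp [h3, h4] at h1
  norm_num at h1

/-- `f + u g` is a sum of `n + 2` cubes (`n = k + 3`). -/
theorem isPowerSum_adjoin (k : ℕ) : IsPowerSum 3 (k + 5) (adjoin (cubic k) (quadric k)) := by
  classical
  let u : MvPolynomial (Option (Fin (k + 3))) ℂ := X none
  let x : Fin (k + 3) → MvPolynomial (Option (Fin (k + 3))) ℂ := fun i => X (some i)
  have hu : u.IsHomogeneous 1 := isHomogeneous_X _ _
  have hx : ∀ i, (x i).IsHomogeneous 1 := fun i => isHomogeneous_X _ _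
  have h : adjoin (cubic k) (quadric k) = C 1 * (u + x 0) ^ 3 + C 2 * (u + x 1) ^ 3 +
      C 3 * (u + x 2) ^ 3 + C (-1) * (u + (x 0 + C 2 * x 1 + C 3 * x 2)) ^ 3 +
      C (-5) * u ^ 3 + ∑ j : Fin k, x j.succ.succ.succ ^ 3 := by
    simp only [adjoin, cubic, quadric, map_add, map_mul, map_pow, map_sum, rename_X, rename_C, u, x]
    have e1 : (C (-1) : MvPolynomial (Option (Fin (k + 3))) ℂ) = -1 := by simp
    have e2 : (C 2 : MvPolynomial (Option (Fin (k + 3))) ℂ) = 2 := map_ofNat C 2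
    have e3 : (C 3 : MvPolynomial (Option (Fin (k + 3))) ℂ) = 3 := map_ofNat C 3
    have e4 : (C 1 : MvPolynomial (Option (Fin (k + 3))) ℂ) = 1 := map_one C
    have e5 : (C (-5) : MvPolynomial (Option (Fin (k + 3))) ℂ) = -5 := by
      rw [C_neg]; exact congrArg Neg.neg (map_ofNat C 5)
    rw [e1, e2, e3, e4, e5]
    ring
  rw [h]
  have hs : IsPowerSum 3 k (∑ j : Fin k, x j.succ.succ.succ ^ 3) := by
    have := isPowerSum_finset (Finset.univ : Finset (Fin k)) (fun j => x j.succ.succ.succ)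
      (fun j _ => hx _)
    simpa using this
  have h5 : k + 5 = 1 + 1 + 1 + 1 + 1 + k := by omega
  rw [h5]
  exact (((((isPowerSum_C_mul _ _ (hu.add (hx 0))).add (isPowerSum_C_mul _ _ (hu.add (hx 1)))).add
    (isPowerSum_C_mul _ _ (hu.add (hx 2)))).add (isPowerSum_C_mul _ _ (hu.add
    (((hx 0).add (hom_C_mul _ _ (hx 1))).add (hom_C_mul _ _ (hx 2)))))).add
    (isPowerSum_C_mul _ _ hu)).add hs

/-! ### No `f + v g` depends on fewer than `n` variables -/

/-- The certificate: the six coefficients of a derivative of `f + v g`. -/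
theorem key (a b c p q r : ℂ)
    (h00 : (1) * ((a * p + b * q + c * r) + p) * (a + 1) * (a + 1) + (2) * ((a * p + b * q + c * r) + q) * a * a + (3) * ((a * p + b * q + c * r) + r) * a * a + (-1) * ((a * p + b * q + c * r) + p + 2 * q + 3 * r) * (a + 1) * (a + 1) + (-5) * ((a * p + b * q + c * r)) * a * a = 0)
    (h01 : (1) * ((a * p + b * q + c * r) + p) * (a + 1) * b + (2) * ((a * p + b * q + c * r) + q) * a * (b + 1) + (3) * ((a * p + b * q + c * r) + r) * a * b + (-1) * ((a * p + b * q + c * r) + p + 2 * q + 3 * r) * (a + 1) * (b + 2) + (-5) * ((a * p + b * q + c * r)) * a * b = 0)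
    (h02 : (1) * ((a * p + b * q + c * r) + p) * (a + 1) * c + (2) * ((a * p + b * q + c * r) + q) * a * c + (3) * ((a * p + b * q + c * r) + r) * a * (c + 1) + (-1) * ((a * p + b * q + c * r) + p + 2 * q + 3 * r) * (a + 1) * (c + 3) + (-5) * ((a * p + b * q + c * r)) * a * c = 0)
    (h11 : (1) * ((a * p + b * q + c * r) + p) * b * b + (2) * ((a * p + b * q + c * r) + q) * (b + 1) * (b + 1) + (3) * ((a * p + b * q + c * r) + r) * b * b + (-1) * ((a * p + b * q + c * r) + p + 2 * q + 3 * r) * (b + 2) * (b + 2) + (-5) * ((a * p + b * q + c * r)) * b * b = 0)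
    (h12 : (1) * ((a * p + b * q + c * r) + p) * b * c + (2) * ((a * p + b * q + c * r) + q) * (b + 1) * c + (3) * ((a * p + b * q + c * r) + r) * b * (c + 1) + (-1) * ((a * p + b * q + c * r) + p + 2 * q + 3 * r) * (b + 2) * (c + 3) + (-5) * ((a * p + b * q + c * r)) * b * c = 0)
    (h22 : (1) * ((a * p + b * q + c * r) + p) * c * c + (2) * ((a * p + b * q + c * r) + q) * c * c + (3) * ((a * p + b * q + c * r) + r) * (c + 1) * (c + 1) + (-1) * ((a * p + b * q + c * r) + p + 2 * q + 3 * r) * (c + 3) * (c + 3) + (-5) * ((a * p + b * q + c * r)) * c * c = 0)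
    : p = 0 ∧ q = 0 ∧ r = 0 := by
  refine ⟨?_, ?_, ?_⟩
  · linear_combination ((3481/2100) + (7093/3150) * c + (6757/1575) * c ^ 2 + (473/150) * b + (-581/75) * b * c + (4751/600) * b ^ 2 + (-3511/700) * a + (-524/175) * a * c + (-42/25) * a * b + (363/175) * a ^ 2) * h00 +
      ((-2903/2100) + (11378/1575) * c + (112/225) * c ^ 2 + (-4891/600) * b + (281/150) * b * c + (-86/75) * b ^ 2 + (-571/100) * a + (787/175) * a * c + (-1041/100) * a * b + (-363/350) * a ^ 2) * h01 +
      ((-23/100) + (-11429/3150) * c + (-113/225) * c ^ 2 + (373/75) * b + (103/75) * b * c + (-97/150) * b ^ 2 + (-2057/700) * a + (-888/175) * a * c + (96/25) * a * b + (-363/350) * a ^ 2) * h02 +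
      ((1381/2100) + (4784/1575) * c + (566/225) * c ^ 2 + (-1013/600) * b + (-89/50) * b * c + (43/50) * b ^ 2 + (397/100) * a + (-109/175) * a * c + (-63/100) * a * b + (2241/350) * a ^ 2) * h11 +
      ((-711/700) + (-5839/3150) * c + (-113/225) * c ^ 2 + (-2479/900) * b + (-857/450) * b * c + (-86/75) * b ^ 2 + (-221/100) * a + (87/175) * a * c + (17/50) * a * b + (-1413/350) * a ^ 2) * h12 +
      ((1381/2100) + (-253/350) * c + (113/675) * c ^ 2 + (209/75) * b + (-178/225) * b * c + (2269/900) * b ^ 2 + (5917/2100) * a + (-262/525) * a * c + (18/25) * a * b + (1271/350) * a ^ 2) * h22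
  · linear_combination ((1537/2100) + (27731/3150) * c + (7039/1575) * c ^ 2 + (787/50) * b + (773/75) * b * c + (5327/600) * b ^ 2 + (-15781/2100) * a + (-3004/525) * a * c + (-862/75) * a * b + (8513/525) * a ^ 2) * h00 +
      ((-26071/2100) + (-9269/1575) * c + (-476/225) * c ^ 2 + (-3667/600) * b + (9/50) * b * c + (28/75) * b ^ 2 + (-7841/300) * a + (-2873/525) * a * c + (-4051/300) * a * b + (-8513/1050) * a ^ 2) * h01 +
      ((-5479/900) + (-7073/3150) * c + (11/25) * c ^ 2 + (-277/225) * b + (353/225) * b * c + (-119/150) * b ^ 2 + (-116441/6300) * a + (-12344/1575) * a * c + (-194/75) * a * b + (-8513/1050) * a ^ 2) * h02 +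
      ((2587/2100) + (-4012/1575) * c + (-118/225) * c ^ 2 + (-881/600) * b + (37/50) * b * c + (-7/25) * b ^ 2 + (3307/300) * a + (-1739/525) * a * c + (-431/100) * a * b + (5497/350) * a ^ 2) * h11 +
      ((33157/6300) + (8657/3150) * c + (11/25) * c ^ 2 + (2777/900) * b + (-269/450) * b * c + (28/75) * b ^ 2 + (10367/900) * a + (8531/1575) * a * c + (1037/150) * a * b + (79/350) * a ^ 2) * h12 +
      ((1537/2100) + (-949/3150) * c + (-11/75) * c ^ 2 + (-436/225) * b + (74/225) * b * c + (-287/900) * b ^ 2 + (29587/6300) * a + (-1502/1575) * a * c + (-1006/225) * a * b + (25363/3150) * a ^ 2) * h22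
  · linear_combination ((-598/525) + (-10688/1575) * c + (-4114/1575) * c ^ 2 + (-1601/150) * b + (-733/75) * b * c + (-319/75) * b ^ 2 + (1308/175) * a + (988/175) * a * c + (224/25) * a * b + (-2416/175) * a ^ 2) * h00 +
      ((4169/525) + (6919/1575) * c + (-124/225) * c ^ 2 + (463/150) * b + (283/150) * b * c + (47/75) * b ^ 2 + (413/25) * a + (1431/175) * a * c + (38/25) * a * b + (1208/175) * a ^ 2) * h01 +
      ((317/75) + (1744/1575) * c + (26/225) * c ^ 2 + (203/150) * b + (4/75) * b * c + (-281/150) * b ^ 2 + (6838/525) * a + (1018/525) * a * c + (163/25) * a * b + (1208/175) * a ^ 2) * h02 +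
      ((-598/525) + (367/1575) * c + (-32/225) * c ^ 2 + (142/75) * b + (23/50) * b * c + (-47/100) * b ^ 2 + (-186/25) * a + (-67/175) * a * c + (84/25) * a * b + (-1431/175) * a ^ 2) * h11 +
      ((-1466/525) + (-2146/1575) * c + (26/225) * c ^ 2 + (-203/225) * b + (-113/225) * b * c + (47/75) * b ^ 2 + (-526/75) * a + (-1132/525) * a * c + (-99/50) * a * b + (-717/175) * a ^ 2) * h12 +
      ((-141/175) + (108/175) * c + (-26/675) * c ^ 2 + (3/50) * b + (46/225) * b * c + (-119/450) * b ^ 2 + (-652/175) * a + (494/525) * a * c + (62/75) * a * b + (-2458/525) * a ^ 2) * h22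


/-- `f + v g` is not invariant under a nonzero translation. -/
theorem not_invariant (k : ℕ) (v : MvPolynomial (Fin (k + 3)) ℂ) (hv : v.IsHomogeneous 1)
    (y : Fin (k + 3) → ℂ)
    (h : ∀ (x : Fin (k + 3) → ℂ) (t : ℂ),
      eval (x + t • y) (cubic k + v * quadric k) = eval x (cubic k + v * quadric k)) : y = 0 := by
  classical
  -- the derivative in direction `y` vanishes
  have hD : ∀ x : Fin (k + 3) → ℂ,
      3 * (x 0 ^ 2 * y 0 + 2 * x 1 ^ 2 * y 1 + 3 * x 2 ^ 2 * y 2
        - (x 0 + 2 * x 1 + 3 * x 2) ^ 2 * (y 0 + 2 * y 1 + 3 * y 2))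
      + 3 * ∑ j : Fin k, x j.succ.succ.succ ^ 2 * y j.succ.succ.succ
      + eval y v * (3 * (x 0 ^ 2 + 2 * x 1 ^ 2 + 3 * x 2 ^ 2 - (x 0 + 2 * x 1 + 3 * x 2) ^ 2))
      + eval x v * (6 * (x 0 * y 0 + 2 * (x 1 * y 1) + 3 * (x 2 * y 2)
        - (x 0 + 2 * x 1 + 3 * x 2) * (y 0 + 2 * y 1 + 3 * y 2))) = 0 := by
    intro x
    have hs : ∀ t : ℂ, ∑ j : Fin k, (x j.succ.succ.succ + t * y j.succ.succ.succ) ^ 3 =
        ∑ j : Fin k, x j.succ.succ.succ ^ 3 +
        t * (3 * ∑ j : Fin k, x j.succ.succ.succ ^ 2 * y j.succ.succ.succ) +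
        t ^ 2 * (3 * ∑ j : Fin k, x j.succ.succ.succ * y j.succ.succ.succ ^ 2) +
        t ^ 3 * ∑ j : Fin k, y j.succ.succ.succ ^ 3 := by
      intro t
      simp only [Finset.mul_sum, ← Finset.sum_add_distrib]
      refine Finset.sum_congr rfl fun j _ => ?_
      ring
    have key : ∀ t : ℂ, _ := fun t => h x t
    simp only [map_add, map_mul, eval_cubic, eval_quadric, eval_linear v hv x y,
      Pi.add_apply, Pi.smul_apply, smul_eq_mul, hs] at key
    linear_combination (key 1) - (key (-1)) / 3 - (key 2) / 6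
  have n01 : (0 : Fin (k + 3)) ≠ 1 := by
    intro hj
    have := congrArg Fin.val hj
    simp at this
  have n12 : (2 : Fin (k + 3)) ≠ 1 := by
    intro hj
    have := congrArg Fin.val hj
    simp at this
    rw [Nat.mod_eq_of_lt (by omega)] at this
    omega
  have n02 : (2 : Fin (k + 3)) ≠ 0 := by
    intro hj
    have := congrArg Fin.val hj
    simp at this
    rw [Nat.mod_eq_of_lt (by omega)] at this
    omega
  have m0 : ∀ j : Fin k, (0 : Fin (k + 3)) ≠ j.succ.succ.succ := by
    intro j hj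
    have := congrArg Fin.val hj
    simp at this
  have m1 : ∀ j : Fin k, (1 : Fin (k + 3)) ≠ j.succ.succ.succ := by
    intro j hj
    have := congrArg Fin.val hj
    simp at this
  have m2 : ∀ j : Fin k, (2 : Fin (k + 3)) ≠ j.succ.succ.succ := by
    intro j hj
    have := congrArg Fin.val hj
    simp at this
    rw [Nat.mod_eq_of_lt (by omega)] at this
    omega
  -- the last coordinates of `y` vanish
  have hy : ∀ j : Fin k, y j.succ.succ.succ = 0 := by
    intro j
    have h1 := hD (Pi.single j.succ.succ.succ 1)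
    have h2 : ∑ i : Fin k, (Pi.single j.succ.succ.succ (1 : ℂ) : Fin (k + 3) → ℂ)
        i.succ.succ.succ ^ 2 * y i.succ.succ.succ = y j.succ.succ.succ := by
      rw [Finset.sum_eq_single j]
      · simp
      · intro i _ hij
        have : i.succ.succ.succ ≠ j.succ.succ.succ := by
          intro hh
          exact hij (by simpa using hh)
        simp [this]
      · simp
    rw [h2, Pi.single_eq_of_ne (m0 j), Pi.single_eq_of_ne (m1 j), Pi.single_eq_of_ne (m2 j)] at h1
    linear_combination h1 / 3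
  -- the linear form `v` in the first three coordinates
  set a := eval (Pi.single 0 1) v with ha
  set b := eval (Pi.single 1 1) v with hb
  set c := eval (Pi.single 2 1) v with hc
  have hvec : ∀ p q r : ℂ, eval (p • Pi.single 0 1 + q • Pi.single 1 1 + r • Pi.single 2 1 :
      Fin (k + 3) → ℂ) v = a * p + b * q + c * r := by
    intro p q r
    rw [eval_linear v hv, eval_linear v hv]
    have := eval_linear v hv 0 (Pi.single 0 1) p
    have h0 := eval_linear v hv 0 0 1
    simp only [zero_add, smul_zero, add_zero, one_mul] at h0 this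
    rw [this]
    linear_combination -h0
  have hyv : y = y 0 • Pi.single 0 1 + y 1 • Pi.single 1 1 + y 2 • Pi.single 2 1 := by
    funext i
    refine Fin.cases ?_ (fun i => ?_) i
    · simp [n01, n02.symm]
    refine Fin.cases ?_ (fun i => ?_) i
    · have e : (Fin.succ 0 : Fin (k + 3)) = 1 := rfl
      rw [e]
      simp [n01.symm, n12.symm]
    refine Fin.cases ?_ (fun i => ?_) i
    · have e : (Fin.succ (Fin.succ 0) : Fin (k + 3)) = 2 := rfl
      rw [e]
      simp [n12, n02]
    · rw [hy i]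
      simp [(m0 i).symm, (m1 i).symm, (m2 i).symm]
  have hyev : eval y v = a * y 0 + b * y 1 + c * y 2 := by
    conv_lhs => rw [hyv]
    exact hvec _ _ _
  have hD' : ∀ p q r : ℂ, _ := fun p q r =>
    hD (p • Pi.single 0 1 + q • Pi.single 1 1 + r • Pi.single 2 1)
  have c0 : ∀ p q r : ℂ, (p • Pi.single 0 1 + q • Pi.single 1 1 + r • Pi.single 2 1 :
      Fin (k + 3) → ℂ) 0 = p := by
    intro p q r
    simp [n01, n02.symm]
  have c1 : ∀ p q r : ℂ, (p • Pi.single 0 1 + q • Pi.single 1 1 + r • Pi.single 2 1 :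
      Fin (k + 3) → ℂ) 1 = q := by
    intro p q r
    simp [n01.symm, n12.symm]
  have c2 : ∀ p q r : ℂ, (p • Pi.single 0 1 + q • Pi.single 1 1 + r • Pi.single 2 1 :
      Fin (k + 3) → ℂ) 2 = r := by
    intro p q r
    simp [n12, n02]
  simp only [hvec, hyev, hy, mul_zero, Finset.sum_const_zero, c0, c1, c2] at hD'
  obtain ⟨h0, h1, h2⟩ := key a b c (y 0) (y 1) (y 2)
    (by linear_combination (hD' 1 0 0) / 3)
    (by linear_combination (hD' 1 1 0 - hD' 1 0 0 - hD' 0 1 0) / 6)
    (by linear_combination (hD' 1 0 1 - hD' 1 0 0 - hD' 0 0 1) / 6)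
    (by linear_combination (hD' 0 1 0) / 3)
    (by linear_combination (hD' 0 1 1 - hD' 0 1 0 - hD' 0 0 1) / 6)
    (by linear_combination (hD' 0 0 1) / 3)
  rw [hyv, h0, h1, h2]
  simp

/-- For every `n ≥ 3` there are a cubic form `f ≠ 0` and a quadratic form `g ≠ 0` in `n` variables
with `WR(f + u g) < 3 + min_v WR(f + v g)`, where `u` is a new variable and `v` runs over the linear
forms in the `n` variables; more precisely `WR(f + u g) ≤ n + 2`, and `WR(f + v g) ≥ n` for all
`v`. -/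
theorem result (n : ℕ) (hn : 3 ≤ n) :
    ∃ f g : MvPolynomial (Fin n) ℂ, f.IsHomogeneous 3 ∧ g.IsHomogeneous 2 ∧ f ≠ 0 ∧ g ≠ 0 ∧
      waringRank 3 (adjoin f g) <
        3 + ⨅ v ∈ {v : MvPolynomial (Fin n) ℂ | v.IsHomogeneous 1}, waringRank 3 (f + v * g) ∧
      waringRank 3 (adjoin f g) ≤ n + 2 ∧
      ∀ v : MvPolynomial (Fin n) ℂ, v.IsHomogeneous 1 → (n : ℕ∞) ≤ waringRank 3 (f + v * g) := by
  obtain ⟨k, rfl⟩ : ∃ k, n = k + 3 := ⟨n - 3, by omega⟩
  have hlow : ∀ v : MvPolynomial (Fin (k + 3)) ℂ, v.IsHomogeneous 1 →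
      ((k + 3 : ℕ) : ℕ∞) ≤ waringRank 3 (cubic k + v * quadric k) := by
    intro v hv
    unfold waringRank
    refine le_iInf₂ fun w hw => ?_
    by_contra hlt
    rw [not_le, Nat.cast_lt] at hlt
    obtain ⟨y, hy0, hy⟩ := exists_invariant hlt _ hw
    exact hy0 (not_invariant k v hv y hy)
  have hup : waringRank 3 (adjoin (cubic k) (quadric k)) ≤ ((k + 3 : ℕ) : ℕ∞) + 2 := by
    have h : waringRank 3 (adjoin (cubic k) (quadric k)) ≤ ((k + 5 : ℕ) : ℕ∞) :=
      iInf₂_le (k + 5) (isPowerSum_adjoin k)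
    refine h.trans (le_of_eq ?_)
    push_cast
    ring
  refine ⟨cubic k, quadric k, cubic_hom k, quadric_hom k, cubic_ne_zero k, quadric_ne_zero k, ?_,
    hup, hlow⟩
  have h1 : ((k + 3 : ℕ) : ℕ∞) ≤ ⨅ v ∈ {v : MvPolynomial (Fin (k + 3)) ℂ | v.IsHomogeneous 1},
      waringRank 3 (cubic k + v * quadric k) := le_iInf₂ fun v hv => hlow v hv
  refine lt_of_le_of_lt hup (lt_of_lt_of_le ?_ (add_le_add_right h1 3))
  have : ((k + 3 : ℕ) : ℕ∞) + 2 = ((k + 5 : ℕ) : ℕ∞) := by push_cast; ring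
  rw [this]
  have : (3 : ℕ∞) + ((k + 3 : ℕ) : ℕ∞) = ((k + 6 : ℕ) : ℕ∞) := by push_cast; ring
  rw [this, Nat.cast_lt]
  omega

end Pool.Agent.Results.MP_1e0c69_ag.NewVariableFails
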